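import Pool.Agent.W54.GR.Sect
import Pool.Agent.H376R2.MR.Fej

/-!
Project GR, task GR-17 (helper54): pairs of close directions with different signs.
-/

set_option autoImplicit false

namespace Pool.Agent.W54.GR

open Finset Filter
open Pool.Agent.H376R2.MR Pool.Agent.W78.GR

variable {t c : ℤ} {η : (Qd t c)ˣ}

/-- the nearest multiple of `2π` -/
noncomputable def rj (φ : ℝ) : ℤ := round (φ / (2 * Real.pi))

/-- representative modulo `2π` in `[-π, π]` -/
noncomputable def rd (φ : ℝ) : ℝ := φ - 2 * Real.pi * (rj φ : ℤ)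

lemma abs_rd_le (φ : ℝ) : |rd φ| ≤ Real.pi := by
  have hpi := Real.pi_pos
  have h := abs_sub_round (φ / (2 * Real.pi))
  have e : rd φ = 2 * Real.pi * (φ / (2 * Real.pi) - (round (φ / (2 * Real.pi)) : ℤ)) := by
    unfold rd rj
    field_simp
  rw [e, abs_mul, abs_of_pos (by positivity)]
  calc 2 * Real.pi * |φ / (2 * Real.pi) - (round (φ / (2 * Real.pi)) : ℤ)|
      ≤ 2 * Real.pi * (1 / 2) := mul_le_mul_of_nonneg_left h (by positivity)
    _ = Real.pi := by ring

lemma cos_add_two_pi_mul (x : ℝ) (m : ℤ) : Real.cos (x + 2 * Real.pi * m) = Real.cos x := by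
  have : x + 2 * Real.pi * m = x + m * (2 * Real.pi) := by ring
  rw [this, Real.cos_add_int_mul_two_pi]

lemma Fj_rd (K : ℕ) (φ : ℝ) : Fj K φ = Fj K (rd φ) := by
  unfold Fj
  refine Finset.sum_congr rfl fun k _ => ?_
  congr 1
  have : (k : ℝ) * rd φ = k * φ + 2 * Real.pi * ((-(k * rj φ) : ℤ) : ℝ) := by
    unfold rd; push_cast; ring
  rw [this, cos_add_two_pi_mul]

lemma exists_primpart {w : Qd t c} (hw : w ≠ 0) :
    ∃ (y : Qd t c) (n : ℕ), 0 < n ∧ prim y ∧ w = (n : Qd t c) * y := by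
  have hg : 0 < Int.gcd w.re w.im := by
    rw [Nat.pos_iff_ne_zero, ne_eq, Int.gcd_eq_zero_iff]
    rintro ⟨h1, h2⟩
    exact hw (QuadraticAlgebra.ext h1 h2)
  obtain ⟨a, b, hab, h1, h2⟩ := Int.exists_gcd_one hg
  refine ⟨⟨a, b⟩, Int.gcd w.re w.im, hg, hab, ?_⟩
  generalize Int.gcd w.re w.im = g at h1 h2
  apply QuadraticAlgebra.ext
  · rw [h1]; simp; ring
  · rw [h2]; simp; ring

/-- a pair of close directions with different signs is close to a sign change pair -/
lemma near_edge (U : Un t c η) {CB : ℝ}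
    (hB : ∀ (X : ℝ) (z z' : Qd t c),
      tp z → tp z' → prim z → prim z' → (nm z : ℝ) ≤ X → (nm z' : ℝ) ≤ X → 0 < dt z z' →
      ang η z' - ang η z ≤ 2 * Real.pi → lam (nm z) ≠ lam (nm z') →
      ∃ v u : Qd t c, tp v ∧ tp u ∧ dt v u = 1 ∧ (nm v : ℝ) ≤ CB * X ∧ (nm u : ℝ) ≤ CB * X ∧
        lam (nm v) ≠ lam (nm u) ∧ ang η z ≤ ang η v ∧ ang η v < ang η u ∧ ang η u ≤ ang η z')
    {X : ℝ} {z z' u : Qd t c} (hz : z ∈ pball η X)
    (hz' : z' ∈ pball η X) (hu : tp u) (hgl : gl z ≠ gl (u * z')) {δ : ℝ}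
    (hδ : δ ≤ 1 / 2) (hr : |rd (ang η z - ang η (u * z'))| ≤ δ) :
    ∃ e ∈ sedge η (CB * nm u * X), (∃ j : ℤ, |ang η z - ang η e.1 + 2 * Real.pi * j| ≤ δ) ∧
      (∃ j : ℤ, |ang η z' - (ang η e.1 - ang η u) + 2 * Real.pi * j| ≤ δ) := by
  obtain ⟨hz1, hz2, hz3⟩ := U.mem_pball.1 hz
  obtain ⟨hz1', hz2', hz3'⟩ := U.mem_pball.1 hz'
  have hpi := Real.pi_gt_three
  have hX0 : 0 ≤ X := (Nat.cast_nonneg _).trans hz3
  have hw : tp (u * z') := tp_mul U.disc hu hz1'.1
  obtain ⟨y, n, hn, hy, hwy⟩ := exists_primpart (tp_ne_zero hw)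
  have hnR : (0 : ℝ) < n := by exact_mod_cast hn
  have hty : tp y := by
    have h1 := hw
    rw [hwy] at h1
    obtain ⟨h2, h3⟩ := h1
    rw [s1_mul U.disc, s1_natCast] at h2
    rw [s2_mul U.disc, s2_natCast] at h3
    exact ⟨(mul_pos_iff_of_pos_left hnR).1 h2, (mul_pos_iff_of_pos_left hnR).1 h3⟩
  have hangy : ang η (u * z') = ang η y := by
    rw [hwy, ang_mul U.disc (tp_natCast hn) hty, ang_natCast hn, zero_add]
  have hang2 : ang η (u * z') = ang η u + ang η z' := ang_mul U.disc hu hz1'.1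
  have hgly : gl (u * z') = gl y := by
    rw [hwy]
    unfold gl
    rw [nm_mul, nm_natCast, lam_sq_mul]
    all_goals first | exact hn.ne' | exact (nm_pos U.disc hty).ne'
  have hyX : (nm y : ℝ) ≤ nm u * X := by
    have h1 : nm (u * z') = n ^ 2 * nm y := by rw [hwy, nm_mul, nm_natCast]
    rw [nm_mul] at h1
    have h2 : (nm y : ℝ) ≤ nm u * nm z' := by
      have : nm y ≤ nm u * nm z' := by
        rw [h1]; exact Nat.le_mul_of_pos_left _ (by positivity)
      exact_mod_cast this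
    exact h2.trans (mul_le_mul_of_nonneg_left hz3' (Nat.cast_nonneg _))
  have hNu : (1 : ℝ) ≤ nm u := one_le_nmR U.disc hu
  have hzX : (nm z : ℝ) ≤ nm u * X := hz3.trans (le_mul_of_one_le_left hX0 hNu)
  rw [hgly] at hgl
  set m : ℤ := rj (ang η z - ang η (u * z')) with hm
  set y' : Qd t c := ((η ^ m : (Qd t c)ˣ) : Qd t c) * y with hy'
  have ty' : tp y' := (U.tp_zpow_mul m).2 hty
  have py' : prim y' := (prim_zpow_mul m).2 hy
  have ny' : nm y' = nm y := Un.nm_zpow_mul m y
  have ay' : ang η y' = ang η y + 2 * Real.pi * m := U.ang_zpow_mul m hty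
  have hr' : |ang η z - ang η y'| ≤ δ := by
    have : ang η z - ang η y' = rd (ang η z - ang η (u * z')) := by
      unfold rd
      rw [ay', ← hm, hangy]
      ring
    rw [this]
    exact hr
  have hr2 := abs_le.1 hr'
  have hdt : dt z y' ≠ 0 := by
    intro h0
    have h1 := dt_zero_tp hz2 py' hz1.1 ty' h0
    apply hgl
    unfold gl
    rw [← ny', h1]
  have hl : lam (nm z) ≠ lam (nm y') := by
    rw [ny']
    exact hgl
  -- the conclusion from a pair with close angles
  have fin : ∀ v w : Qd t c, tp v → tp w → dt v w = 1 → (nm v : ℝ) ≤ CB * (nm u * X) →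
      (nm w : ℝ) ≤ CB * (nm u * X) → lam (nm v) ≠ lam (nm w) → |ang η z - ang η v| ≤ δ →
      |ang η y' - ang η v| ≤ δ →
      ∃ e ∈ sedge η (CB * nm u * X), (∃ j : ℤ, |ang η z - ang η e.1 + 2 * Real.pi * j| ≤ δ) ∧
      (∃ j : ℤ, |ang η z' - (ang η e.1 - ang η u) + 2 * Real.pi * j| ≤ δ) := by
    intro v w hv hw' hdt1 nv nw hlvw k1 k2
    set J := ex η v with hJ
    have hav : ang η (((η ^ J : (Qd t c)ˣ) : Qd t c) * v) = ang η v + 2 * Real.pi * J :=
      U.ang_zpow_mul J hv
    refine ⟨(((η ^ J : (Qd t c)ˣ) : Qd t c) * v, ((η ^ J : (Qd t c)ˣ) : Qd t c) * w), ?_,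
      ⟨J, ?_⟩, ⟨J + m, ?_⟩⟩
    · rw [U.mem_sedge]
      simp only
      rw [Un.nm_zpow_mul, Un.nm_zpow_mul, U.dt_zpow_mul]
      refine ⟨⟨U.rep_fd hv, ?_, (U.tp_zpow_mul J).2 hw', ?_, hdt1⟩, hlvw⟩
      · rw [mul_assoc]; exact nv
      · rw [mul_assoc]; exact nw
    · simp only
      rw [hav]
      have : ang η z - (ang η v + 2 * Real.pi * J) + 2 * Real.pi * J = ang η z - ang η v := by ring
      rw [this]
      exact k1
    · simp only
      rw [hav]
      have : ang η z' - (ang η v + 2 * Real.pi * J - ang η u) + 2 * Real.pi * ((J + m : ℤ) : ℝ) =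
          ang η y' - ang η v := by
        rw [ay', ← hangy, hang2]
        push_cast
        ring
      rw [this]
      exact k2
  rcases lt_or_gt_of_ne hdt with hneg | hpos
  · have hd : 0 < dt y' z := by
      have : dt y' z = - dt z y' := by unfold dt; ring
      omega
    have hlt := (U.dt_pos_iff ty' hz1.1).1 hd
    obtain ⟨v, w, g1, g2, g3, g4, g5, g6, g7, g8, g9⟩ := hB (nm u * X) y' z ty' hz1.1 py' hz2
      (by rw [ny']; exact hyX) hzX hd (by linarith) (Ne.symm hl)
    refine fin v w g1 g2 g3 g4 g5 g6 ?_ ?_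
    · rw [abs_le]
      constructor <;> linarith
    · rw [abs_le]
      constructor <;> linarith
  · have hlt := (U.dt_pos_iff hz1.1 ty').1 hpos
    obtain ⟨v, w, g1, g2, g3, g4, g5, g6, g7, g8, g9⟩ := hB (nm u * X) z y' hz1.1 ty' hz2 py'
      hzX (by rw [ny']; exact hyX) hpos (by linarith) hl
    refine fin v w g1 g2 g3 g4 g5 g6 ?_ ?_
    · rw [abs_le]
      constructor <;> linarith
    · rw [abs_le]
      constructor <;> linarith

lemma geom_half (J : ℕ) : ∑ j ∈ range J, (1 / 2 : ℝ) ^ j ≤ 2 := by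
  have : ∑ j ∈ range J, (1 / 2 : ℝ) ^ j = 2 - 2 * (1 / 2) ^ J := by
    induction J with
    | zero => simp
    | succ J ih => rw [Finset.sum_range_succ, ih]; ring
  rw [this]
  have : (0 : ℝ) ≤ (1 / 2) ^ J := by positivity
  linarith

lemma geom_quarter (J : ℕ) : ∑ j ∈ range J, (1 / 4 : ℝ) ^ j ≤ 2 := by
  refine le_trans (Finset.sum_le_sum fun j _ => ?_) (geom_half J)
  exact pow_le_pow_left₀ (by norm_num) (by norm_num) j

/-- the pointwise bound -/
lemma pt_bound {K : ℕ} (hK : 1 ≤ K) {T : ℝ} (hT : 1 ≤ T) {r : ℝ} (hr : |r| ≤ Real.pi) :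
    Fj K r ≤ (if |r| ≤ T / K then (K : ℝ) else 0) +
      ∑ j ∈ range (K + 2), (if |r| ≤ 2 ^ (j + 1) * T / K then
        Real.pi ^ 2 * K / (T ^ 2) * (1 / 4) ^ j else 0) := by
  have hKR : (1 : ℝ) ≤ K := by exact_mod_cast hK
  have hK0 : (0 : ℝ) < K := by linarith
  have hT0 : 0 < T := by linarith
  have hpi := Real.pi_pos
  by_cases hn : |r| ≤ T / K
  · rw [if_pos hn]
    have h1 := Fj_le K r
    have h2 : 0 ≤ ∑ j ∈ range (K + 2), (if |r| ≤ 2 ^ (j + 1) * T / K then
        Real.pi ^ 2 * K / (T ^ 2) * (1 / 4) ^ j else 0) := by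
      apply Finset.sum_nonneg
      intro j _
      split_ifs
      · positivity
      · exact le_rfl
    linarith
  · rw [if_neg hn, zero_add]
    push Not at hn
    have hrpos : 0 < |r| := lt_trans (by positivity) hn
    have hr0 : r ≠ 0 := abs_pos.1 hrpos
    have hx : 1 ≤ |r| * K / T := by
      rw [le_div_iff₀ hT0, one_mul]
      rw [div_lt_iff₀ hK0] at hn
      exact hn.le
    obtain ⟨j, hj1, hj2⟩ := exists_nat_pow_near hx (by norm_num : (1 : ℝ) < 2)
    have hjK : j ∈ range (K + 2) := by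
      rw [Finset.mem_range]
      by_contra hcon
      push Not at hcon
      have h1 : (2 : ℝ) ^ (K + 2) ≤ 2 ^ j := pow_le_pow_right₀ (by norm_num) hcon
      have h2 : |r| * K / T ≤ Real.pi * K := by
        rw [div_le_iff₀ hT0]
        calc |r| * K ≤ Real.pi * K := mul_le_mul_of_nonneg_right hr hK0.le
          _ = Real.pi * K * 1 := by ring
          _ ≤ Real.pi * K * T := mul_le_mul_of_nonneg_left hT (by positivity)
      have h3 : (K : ℝ) < 2 ^ K := by exact_mod_cast Nat.lt_two_pow_self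
      have h4 : Real.pi < 4 := Real.pi_lt_four
      have h5 : Real.pi * K < 4 * 2 ^ K := by
        calc Real.pi * K < 4 * K := by nlinarith
          _ < 4 * 2 ^ K := by linarith
      have h6 : (2 : ℝ) ^ (K + 2) = 4 * 2 ^ K := by rw [pow_add]; ring
      linarith
    have hterm : Fj K r ≤ (if |r| ≤ 2 ^ (j + 1) * T / K then
        Real.pi ^ 2 * K / (T ^ 2) * (1 / 4) ^ j else 0) := by
      have hc : |r| ≤ 2 ^ (j + 1) * T / K := by
        rw [le_div_iff₀ hK0]
        rw [div_lt_iff₀ hT0] at hj2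
        exact hj2.le
      rw [if_pos hc]
      refine (Fj_le_sq hK hr0 hr).trans ?_
      rw [le_div_iff₀ hT0] at hj1
      have h1 : (2 ^ j * T) ^ 2 ≤ (|r| * K) ^ 2 := pow_le_pow_left₀ (by positivity) hj1 2
      have h2 : (|r| * K) ^ 2 = K ^ 2 * r ^ 2 := by rw [mul_pow, sq_abs]; ring
      rw [h2] at h1
      have h3 : (2 ^ j * T : ℝ) ^ 2 = 4 ^ j * T ^ 2 := by
        rw [mul_pow, ← pow_mul, mul_comm j 2, pow_mul]; norm_num
      rw [h3] at h1
      rw [div_le_iff₀ (by positivity)]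
      have h4 : Real.pi ^ 2 * K / T ^ 2 * (1 / 4) ^ j * (K * r ^ 2) =
          Real.pi ^ 2 / (4 ^ j * T ^ 2) * (K ^ 2 * r ^ 2) := by
        rw [one_div, inv_pow]
        field_simp
      rw [h4, div_mul_eq_mul_div, le_div_iff₀ (by positivity)]
      exact mul_le_mul_of_nonneg_left h1 (by positivity)
    refine hterm.trans ?_
    refine Finset.single_le_sum (f := fun j => (if |r| ≤ 2 ^ (j + 1) * T / K then
        Real.pi ^ 2 * K / (T ^ 2) * (1 / 4) ^ j else 0)) ?_ hjK
    intro i _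
    split_ifs
    · positivity
    · exact le_rfl

lemma kap_pos (U : Un t c η) : 0 < kap η := by
  unfold kap
  exact div_pos U.rg_pos (sd_pos U.disc)

theorem pair_of (U : Un t c η) : S_SECT t c η → S_BETW t c η → S_LAT t c η → S_PAIR t c η := by
  classical
  intro hS hB hL u hu
  obtain ⟨C, hC, hS⟩ := hS
  obtain ⟨CB, hCB, hB⟩ := hB
  obtain ⟨CL, hCL, hL, -⟩ := hL
  have hpi := Real.pi_pos
  have hkap := kap_pos U
  have hNu : (1 : ℝ) ≤ nm u := one_le_nmR U.disc hu
  refine ⟨C ^ 2 + (kap η + CL) * (8 * C * Real.pi ^ 2), by positivity, CB * nm u,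
    by nlinarith, ?_⟩
  intro X T K hX hT hK hTK
  have hX0 : 0 < X := by linarith
  have hT0 : 0 < T := by linarith
  have hKR : (1 : ℝ) ≤ K := by exact_mod_cast hK
  have hK0 : (0 : ℝ) < K := by linarith
  have hδ : T / K ≤ 1 / 2 := by
    rw [div_le_div_iff₀ hK0 (by norm_num)]; linarith
  set r : Qd t c → Qd t c → ℝ := fun z z' => rd (ang η z - ang η (u * z')) with hr
  -- pointwise bound
  have hpt : ∀ z ∈ pball η X, ∀ z' ∈ pball η X,
      (if gl z ≠ gl (u * z') then Fj K (ang η z - ang η (u * z')) else 0) ≤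
      (if gl z ≠ gl (u * z') ∧ |r z z'| ≤ T / K then (K : ℝ) else 0) +
      ∑ j ∈ range (K + 2), (if |r z z'| ≤ 2 ^ (j + 1) * T / K then
        Real.pi ^ 2 * K / (T ^ 2) * (1 / 4) ^ j else 0) := by
    intro z _ z' _
    have h1 := pt_bound hK hT (abs_rd_le (ang η z - ang η (u * z')))
    have h2 : 0 ≤ ∑ j ∈ range (K + 2), (if |r z z'| ≤ 2 ^ (j + 1) * T / K then
        Real.pi ^ 2 * K / (T ^ 2) * (1 / 4) ^ j else 0) := by
      apply Finset.sum_nonneg
      intro j _
      split_ifs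
      · positivity
      · exact le_rfl
    by_cases hg : gl z ≠ gl (u * z')
    · rw [if_pos hg, Fj_rd]
      refine h1.trans ?_
      apply add_le_add _ le_rfl
      by_cases hn : |rd (ang η z - ang η (u * z'))| ≤ T / K
      · rw [if_pos hn, if_pos ⟨hg, hn⟩]
      · rw [if_neg hn]
        split_ifs
        · positivity
        · exact le_rfl
    · rw [if_neg hg]
      have : 0 ≤ (if gl z ≠ gl (u * z') ∧ |r z z'| ≤ T / K then (K : ℝ) else 0) := by
        split_ifs
        · positivity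
        · exact le_rfl
      linarith
  -- near pairs
  have hnear : ∑ z ∈ pball η X, ∑ z' ∈ pball η X,
      (if gl z ≠ gl (u * z') ∧ |r z z'| ≤ T / K then (K : ℝ) else 0) ≤
      C ^ 2 * (K * (T * X / K + 1) ^ 2 * ((sedge η (CB * nm u * X)).card : ℝ)) := by
    rw [← Finset.sum_product', ← Finset.sum_filter, Finset.sum_const, nsmul_eq_mul]
    set A : Qd t c × Qd t c → Finset (Qd t c) := fun e =>
      (pball η X).filter (fun z => ∃ j : ℤ, |ang η z - ang η e.1 + 2 * Real.pi * j| ≤ T / K) with hA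
    set B : Qd t c × Qd t c → Finset (Qd t c) := fun e =>
      (pball η X).filter
        (fun z => ∃ j : ℤ, |ang η z - (ang η e.1 - ang η u) + 2 * Real.pi * j| ≤ T / K)
      with hBd
    have hsub : ((pball η X ×ˢ pball η X).filter
        (fun p : Qd t c × Qd t c => gl p.1 ≠ gl (u * p.2) ∧ |r p.1 p.2| ≤ T / K)) ⊆
        (sedge η (CB * nm u * X)).biUnion (fun e => A e ×ˢ B e) := by
      rintro ⟨z, z'⟩ hp
      rw [mem_filter, mem_product] at hp
      obtain ⟨⟨hz, hz'⟩, hg, hn⟩ := hp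
      obtain ⟨e, he, h1, h2⟩ := near_edge U hB hz hz' hu hg hδ hn
      rw [mem_biUnion]
      exact ⟨e, he, mem_product.2 ⟨mem_filter.2 ⟨hz, h1⟩, mem_filter.2 ⟨hz', h2⟩⟩⟩
    have hcard : (((pball η X ×ˢ pball η X).filter
        (fun p : Qd t c × Qd t c => gl p.1 ≠ gl (u * p.2) ∧ |r p.1 p.2| ≤ T / K)).card : ℝ) ≤
        ((sedge η (CB * nm u * X)).card : ℝ) * (C * (X * (T / K) + 1)) ^ 2 := by
      have h1 := (Finset.card_le_card hsub).trans Finset.card_biUnion_le
      have h2 : ((∑ e ∈ sedge η (CB * nm u * X), (A e ×ˢ B e).card : ℕ) : ℝ) ≤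
          ∑ e ∈ sedge η (CB * nm u * X), (C * (X * (T / K) + 1)) ^ 2 := by
        push_cast
        apply Finset.sum_le_sum
        intro e _
        rw [Finset.card_product]
        push_cast
        rw [pow_two]
        have hδ0 : 0 ≤ T / K := by positivity
        have hδπ : T / K ≤ Real.pi := by have := Real.pi_gt_three; linarith
        apply mul_le_mul
        · have := hS X (T / K) (ang η e.1) hX hδ0 hδπ
          simpa [hA] using this
        · have := hS X (T / K) (ang η e.1 - ang η u) hX hδ0 hδπ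
          simpa [hBd] using this
        · positivity
        · positivity
      rw [Finset.sum_const, nsmul_eq_mul] at h2
      exact le_trans (by exact_mod_cast h1) h2
    calc (((pball η X ×ˢ pball η X).filter
        (fun p : Qd t c × Qd t c => gl p.1 ≠ gl (u * p.2) ∧ |r p.1 p.2| ≤ T / K)).card : ℝ)
          * K ≤ ((sedge η (CB * nm u * X)).card : ℝ) * (C * (X * (T / K) + 1)) ^ 2 * K :=
          mul_le_mul_of_nonneg_right hcard hK0.le
      _ = C ^ 2 * (K * (T * X / K + 1) ^ 2 * ((sedge η (CB * nm u * X)).card : ℝ)) := by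
          have : X * (T / K) = T * X / K := by ring
          rw [this]; ring
  -- far pairs
  have hfar : ∑ z ∈ pball η X, ∑ z' ∈ pball η X,
      ∑ j ∈ range (K + 2), (if |r z z'| ≤ 2 ^ (j + 1) * T / K then
        Real.pi ^ 2 * K / (T ^ 2) * (1 / 4) ^ j else 0) ≤
      (kap η + CL) * (8 * C * Real.pi ^ 2) * (X ^ 2 / T + X * K / T ^ 2) := by
    have hone : ∀ z ∈ pball η X, ∑ z' ∈ pball η X,
        ∑ j ∈ range (K + 2), (if |r z z'| ≤ 2 ^ (j + 1) * T / K then
          Real.pi ^ 2 * K / (T ^ 2) * (1 / 4) ^ j else 0) ≤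
        8 * C * Real.pi ^ 2 * (X / T + K / T ^ 2) := by
      intro z _
      rw [Finset.sum_comm]
      have hj : ∀ j ∈ range (K + 2), ∑ z' ∈ pball η X, (if |r z z'| ≤ 2 ^ (j + 1) * T / K then
          Real.pi ^ 2 * K / (T ^ 2) * (1 / 4) ^ j else 0) ≤
          2 * C * Real.pi ^ 2 * X / T * (1 / 2) ^ j + C * Real.pi ^ 2 * K / T ^ 2 * (1 / 4) ^ j := by
        intro j _
        rw [← Finset.sum_filter, Finset.sum_const, nsmul_eq_mul]
        set δ := min Real.pi (2 ^ (j + 1) * T / K) with hδd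
        have hδ0 : 0 ≤ δ := le_min hpi.le (by positivity)
        have hsub : (pball η X).filter (fun z' => |r z z'| ≤ 2 ^ (j + 1) * T / K) ⊆
            (pball η X).filter (fun z' => ∃ m : ℤ,
              |ang η z' - (ang η z - ang η u) + 2 * Real.pi * m| ≤ δ) := by
          intro z' hz'
          rw [mem_filter] at hz' ⊢
          refine ⟨hz'.1, ?_⟩
          have hz2 := (U.mem_pball.1 hz'.1).1.1
          refine ⟨rj (ang η z - ang η (u * z')), ?_⟩
          have e1 : ang η z' - (ang η z - ang η u) +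
              2 * Real.pi * ((rj (ang η z - ang η (u * z')) : ℤ) : ℝ) = -(r z z') := by
            rw [hr]
            simp only
            unfold rd
            have e2 := ang_mul (η := η) U.disc hu hz2
            linarith
          rw [e1, abs_neg]
          exact le_min (abs_rd_le _) hz'.2
        have h1 : (((pball η X).filter (fun z' => |r z z'| ≤ 2 ^ (j + 1) * T / K)).card : ℝ) ≤
            C * (X * (2 ^ (j + 1) * T / K) + 1) := by
          have h2 := hS X δ (ang η z - ang η u) hX hδ0 (min_le_left _ _)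
          have h3 : (((pball η X).filter (fun z' => |r z z'| ≤ 2 ^ (j + 1) * T / K)).card : ℝ) ≤
              (((pball η X).filter (fun z' => ∃ m : ℤ,
                |ang η z' - (ang η z - ang η u) + 2 * Real.pi * m| ≤ δ)).card : ℝ) := by
            exact_mod_cast Finset.card_le_card hsub
          have h4 : C * (X * δ + 1) ≤ C * (X * (2 ^ (j + 1) * T / K) + 1) := by
            apply mul_le_mul_of_nonneg_left _ hC.le
            have := mul_le_mul_of_nonneg_left (min_le_right Real.pi (2 ^ (j + 1) * T / K)) hX0.le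
            linarith
          exact h3.trans (h2.trans h4)
        calc _ ≤ C * (X * (2 ^ (j + 1) * T / K) + 1) * (Real.pi ^ 2 * K / T ^ 2 * (1 / 4) ^ j) :=
              mul_le_mul_of_nonneg_right h1 (by positivity)
          _ = 2 * C * Real.pi ^ 2 * X / T * (1 / 2) ^ j +
              C * Real.pi ^ 2 * K / T ^ 2 * (1 / 4) ^ j := by
              have e1 : (2 : ℝ) ^ (j + 1) * (1 / 4) ^ j = 2 * (1 / 2) ^ j := by
                rw [pow_succ, mul_comm ((2 : ℝ) ^ j) 2, mul_assoc, ← mul_pow]; norm_num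
              have e2 : C * (X * (2 ^ (j + 1) * T / K) + 1) *
                  (Real.pi ^ 2 * K / T ^ 2 * (1 / 4) ^ j) =
                  C * X * Real.pi ^ 2 / T * (2 ^ (j + 1) * (1 / 4) ^ j) +
                    C * Real.pi ^ 2 * K / T ^ 2 * (1 / 4) ^ j := by
                field_simp
              rw [e2, e1]; ring
      refine (Finset.sum_le_sum hj).trans ?_
      rw [Finset.sum_add_distrib, ← Finset.mul_sum, ← Finset.mul_sum]
      have g1 := mul_le_mul_of_nonneg_left (geom_half (K + 2))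
        (by positivity : 0 ≤ 2 * C * Real.pi ^ 2 * X / T)
      have g2 := mul_le_mul_of_nonneg_left (geom_quarter (K + 2))
        (by positivity : 0 ≤ C * Real.pi ^ 2 * K / T ^ 2)
      have g3 : 0 ≤ C * Real.pi ^ 2 * X / T := by positivity
      have g4 : 0 ≤ C * Real.pi ^ 2 * K / T ^ 2 := by positivity
      calc _ ≤ 2 * C * Real.pi ^ 2 * X / T * 2 + C * Real.pi ^ 2 * K / T ^ 2 * 2 :=
            add_le_add g1 g2
        _ = 4 * (C * Real.pi ^ 2 * X / T) + 2 * (C * Real.pi ^ 2 * K / T ^ 2) := by ring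
        _ ≤ 8 * (C * Real.pi ^ 2 * X / T) + 8 * (C * Real.pi ^ 2 * K / T ^ 2) := by linarith
        _ = 8 * C * Real.pi ^ 2 * (X / T + K / T ^ 2) := by ring
    refine (Finset.sum_le_sum hone).trans ?_
    rw [Finset.sum_const, nsmul_eq_mul]
    have hcard : ((pball η X).card : ℝ) ≤ (kap η + CL) * X := by
      have h1 : ((pball η X).card : ℝ) ≤ ((ball η X).card : ℝ) := by
        exact_mod_cast Finset.card_le_card (Finset.filter_subset _ _)
      have hL1 := hL X 1 0 hX le_rfl
      rw [filter_true_of_mem (by intro z _; unfold lat; simp)] at hL1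
      have h2 := (abs_le.1 hL1).2
      rw [Nat.cast_one, div_one] at h2
      have h3 : Real.sqrt X ≤ X := by
        rw [Real.sqrt_le_left hX0.le]
        nlinarith
      have h4 := mul_le_mul_of_nonneg_left h3 hCL.le
      linarith
    calc ((pball η X).card : ℝ) * (8 * C * Real.pi ^ 2 * (X / T + K / T ^ 2))
        ≤ (kap η + CL) * X * (8 * C * Real.pi ^ 2 * (X / T + K / T ^ 2)) :=
          mul_le_mul_of_nonneg_right hcard (by positivity)
      _ = (kap η + CL) * (8 * C * Real.pi ^ 2) * (X ^ 2 / T + X * K / T ^ 2) := by ring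
  have htot : ∑ z ∈ pball η X, ∑ z' ∈ pball η X,
      (if gl z ≠ gl (u * z') then Fj K (ang η z - ang η (u * z')) else 0) ≤
      C ^ 2 * (K * (T * X / K + 1) ^ 2 * ((sedge η (CB * nm u * X)).card : ℝ)) +
      (kap η + CL) * (8 * C * Real.pi ^ 2) * (X ^ 2 / T + X * K / T ^ 2) := by
    refine (Finset.sum_le_sum fun z hz => Finset.sum_le_sum fun z' hz' => hpt z hz z' hz').trans ?_
    simp only [Finset.sum_add_distrib] at hnear hfar ⊢
    linarith
  refine htot.trans ?_
  have a1 : 0 ≤ (K : ℝ) * (T * X / K + 1) ^ 2 * ((sedge η (CB * nm u * X)).card : ℝ) := by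
    positivity
  have a2 : 0 ≤ X ^ 2 / T + X * K / T ^ 2 := by positivity
  have a3 : 0 ≤ (kap η + CL) * (8 * C * Real.pi ^ 2) := by positivity
  have a4 : 0 ≤ C ^ 2 := by positivity
  have b1 := mul_nonneg a3 a1
  have b2 := mul_nonneg a4 a2
  calc _ ≤ C ^ 2 * (K * (T * X / K + 1) ^ 2 * ((sedge η (CB * nm u * X)).card : ℝ)) +
      (kap η + CL) * (8 * C * Real.pi ^ 2) * (X ^ 2 / T + X * K / T ^ 2) +
      ((kap η + CL) * (8 * C * Real.pi ^ 2)) *
        (K * (T * X / K + 1) ^ 2 * ((sedge η (CB * nm u * X)).card : ℝ))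
      + C ^ 2 * (X ^ 2 / T + X * K / T ^ 2) := by linarith
    _ = _ := by ring

end Pool.Agent.W54.GR
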