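import Pool.Agent.W78.GR.Basic

/-!
Project GR, task GR-17 (helper54): primitive elements in thin sectors, and sign change pairs
between two primitive elements with different signs.
-/

set_option autoImplicit false

namespace Pool.Agent.W54.GR

open Finset Filter
open Pool.Agent.H376R2.MR Pool.Agent.W78.GR

variable {t c : ℤ} {η : (Qd t c)ˣ}

lemma sd_two (U : Un t c η) : 2 ≤ Real.sqrt ((t : ℝ) ^ 2 - 4 * c) := by
  apply Real.le_sqrt_of_sq_le
  have := U.five_le
  linarith

/-- two primitive vectors with determinant zero are equal or opposite -/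
lemma dt_zero {v u : Qd t c} (hv : prim v) (hu : prim u) (h : dt v u = 0) :
    u = v ∨ u = -v := by
  unfold prim at hv hu
  unfold dt at h
  have hb := Int.gcd_eq_gcd_ab v.re v.im
  rw [hv] at hb
  set a := Int.gcdA v.re v.im
  set b := Int.gcdB v.re v.im
  push_cast at hb
  set k := a * u.re + b * u.im with hc
  have h1 : u.re = k * v.re := by rw [hc]; linear_combination u.re * hb - b * h
  have h2 : u.im = k * v.im := by rw [hc]; linear_combination u.im * hb + a * h
  have h3 : (Int.gcd u.re u.im : ℕ) = k.natAbs := by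
    rw [h1, h2, Int.gcd_mul_left, hv, mul_one]
  rw [hu] at h3
  rcases Int.natAbs_eq k with h4 | h4
  · left
    rw [← h3] at h4
    apply QuadraticAlgebra.ext
    · rw [h1, h4]; simp
    · rw [h2, h4]; simp
  · right
    rw [← h3] at h4
    apply QuadraticAlgebra.ext
    · rw [h1, h4]; simp
    · rw [h2, h4]; simp

/-- two totally positive primitive elements with determinant zero are equal -/
lemma dt_zero_tp {v u : Qd t c} (hv : prim v) (hu : prim u) (h1 : tp v) (h2 : tp u)
    (h : dt v u = 0) : u = v := by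
  rcases dt_zero hv hu h with h3 | h3
  · exact h3
  · exfalso
    have h4 := h1.1
    have h5 := h2.1
    rw [h3, s1_neg] at h5
    linarith

lemma abs_sinh_le {x : ℝ} (hx : |x| ≤ 1) : |Real.sinh x| ≤ 2 * |x| := by
  have h1 := abs_le.1 (Real.abs_exp_sub_one_sub_id_le hx)
  have hx' : |-x| ≤ 1 := by rwa [abs_neg]
  have h2 := abs_le.1 (Real.abs_exp_sub_one_sub_id_le hx')
  have h3 : x ^ 2 ≤ |x| := by
    rw [← sq_abs]
    have := abs_nonneg x
    nlinarith
  rw [Real.sinh_eq, abs_le]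
  have h5 := neg_abs_le x
  have h6 := le_abs_self x
  constructor
  · nlinarith [h1.1, h1.2, h2.1, h2.2]
  · nlinarith [h1.1, h1.2, h2.1, h2.2]

/-- the directions of the primitive vectors of norm at most `X` are separated -/
lemma separated (U : Un t c η) {X : ℝ} (hX : 1 ≤ X) {z u : Qd t c} (hz : z ∈ pball η X)
    (hu : u ∈ pball η X) (hne : u ≠ z) (j : ℤ) :
    1 / (2 * (rg η / (2 * Real.pi)) * X) ≤ |ang η u - ang η z + 2 * Real.pi * j| := by
  obtain ⟨hz1, hz2, hz3⟩ := U.mem_pball.1 hz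
  obtain ⟨hu1, hu2, hu3⟩ := U.mem_pball.1 hu
  have hpi := Real.pi_pos
  have hR := U.rg_pos
  set b := rg η / (2 * Real.pi) with hb
  have hb0 : 0 < b := by positivity
  set τ := ang η u - ang η z + 2 * Real.pi * j with hτ
  set u' : Qd t c := ((η ^ j : (Qd t c)ˣ) : Qd t c) * u with hu'
  have htp : tp u' := (U.tp_zpow_mul j).2 hu1.1
  have hp : prim u' := (prim_zpow_mul j).2 hu2
  have hang : ang η u' - ang η z = τ := by
    rw [hu', U.ang_zpow_mul j hu1.1, hτ]; ring
  have hdt : dt z u' ≠ 0 := by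
    intro h0
    have h1 := dt_zero_tp hz2 hp hz1.1 htp h0
    exact hne (U.eq_of_zpow_mul hu1 hz1 (h1.symm.trans hu')).symm
  have h1 := U.dt_sinh hz1.1 htp
  rw [hang] at h1
  have h2 : (1 : ℝ) ≤ |(dt z u' : ℝ)| := by
    have : (1 : ℤ) ≤ |dt z u'| := Int.one_le_abs hdt
    exact_mod_cast this
  have h3 := sd_two U
  have hnm : (nm u' : ℝ) = nm u := by rw [hu', Un.nm_zpow_mul]
  have h4 : Real.sqrt ((nm z : ℝ) * nm u') ≤ X := by
    rw [hnm, Real.sqrt_le_left (by linarith)]
    have := mul_le_mul hz3 hu3 (Nat.cast_nonneg _) (by linarith)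
    nlinarith
  have h5 : 2 ≤ 2 * X * |Real.sinh (b * τ)| := by
    have e1 : 2 * 1 ≤ |Real.sqrt ((t : ℝ) ^ 2 - 4 * c) * (dt z u' : ℝ)| := by
      rw [abs_mul, abs_of_nonneg (by linarith)]
      exact mul_le_mul h3 h2 zero_le_one (by linarith)
    rw [h1, abs_mul, abs_of_nonneg (by positivity)] at e1
    have e2 : 2 * Real.sqrt ((nm z : ℝ) * nm u') * |Real.sinh (b * τ)| ≤
        2 * X * |Real.sinh (b * τ)| := by
      apply mul_le_mul_of_nonneg_right _ (abs_nonneg _)
      linarith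
    linarith
  have hX0 : 0 < X := by linarith
  rw [div_le_iff₀ (by positivity)]
  by_cases h6 : |b * τ| ≤ 1
  · have h7 := abs_sinh_le h6
    rw [abs_mul, abs_of_pos hb0] at h7
    have h8 : X * |Real.sinh (b * τ)| ≤ X * (2 * (b * |τ|)) := mul_le_mul_of_nonneg_left h7 hX0.le
    linarith
  · push Not at h6
    rw [abs_mul, abs_of_pos hb0] at h6
    have h7 : b * |τ| ≤ b * |τ| * X := le_mul_of_one_le_right (by positivity) hX
    linarith

theorem sect (U : Un t c η) : S_SECT t c η := by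
  classical
  have hpi := Real.pi_pos
  have hR := U.rg_pos
  set b := rg η / (2 * Real.pi) with hb
  have hb0 : 0 < b := by positivity
  refine ⟨4 * b + 2, by positivity, ?_⟩
  intro X δ θ hX hδ hδπ
  have hX0 : 0 < X := by linarith
  set S := (pball η X).filter (fun z => ∃ j : ℤ, |ang η z - θ + 2 * Real.pi * j| ≤ δ) with hS
  have hch : ∀ z ∈ S, ∃ j : ℤ, |ang η z - θ + 2 * Real.pi * j| ≤ δ :=
    fun z hz => (mem_filter.1 hz).2
  choose! J hJ using hch
  set f : Qd t c → ℤ := fun z => ⌊2 * b * X * (ang η z - θ + 2 * Real.pi * J z)⌋ with hf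
  have hmap : ∀ z ∈ S, f z ∈ Icc ⌊-(2 * b * X * δ)⌋ ⌊2 * b * X * δ⌋ := by
    intro z hz
    have h1 := abs_le.1 (hJ z hz)
    have hX2 : (0 : ℝ) ≤ 2 * b * X := by positivity
    rw [mem_Icc]
    constructor
    · apply Int.floor_le_floor
      have := mul_le_mul_of_nonneg_left h1.1 hX2
      linarith
    · apply Int.floor_le_floor
      exact mul_le_mul_of_nonneg_left h1.2 hX2
  have hinj : Set.InjOn f S := by
    intro z hz u hu hzu
    by_contra hne
    have hz' := (mem_filter.1 hz).1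
    have hu' := (mem_filter.1 hu).1
    have h1 := separated U hX hz' hu' (Ne.symm hne) (J u - J z)
    have h2 : |2 * b * X * (ang η u - θ + 2 * Real.pi * J u) -
        2 * b * X * (ang η z - θ + 2 * Real.pi * J z)| < 1 :=
      Int.abs_sub_lt_one_of_floor_eq_floor hzu.symm
    have h3 : 2 * b * X * (ang η u - θ + 2 * Real.pi * J u) -
        2 * b * X * (ang η z - θ + 2 * Real.pi * J z) =
        2 * b * X * (ang η u - ang η z + 2 * Real.pi * ((J u - J z : ℤ) : ℝ)) := by
      push_cast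
      ring
    rw [h3, abs_mul, abs_of_pos (by positivity : (0 : ℝ) < 2 * b * X)] at h2
    rw [div_le_iff₀ (by positivity)] at h1
    linarith
  have hcard := Finset.card_le_card_of_injOn f hmap hinj
  rw [Int.card_Icc] at hcard
  have h1 : ((⌊2 * b * X * δ⌋ + 1 - ⌊-(2 * b * X * δ)⌋).toNat : ℝ) ≤
      (4 * b + 2) * (X * δ + 1) := by
    have h3 : (((⌊2 * b * X * δ⌋ + 1 - ⌊-(2 * b * X * δ)⌋).toNat : ℕ) : ℝ) =
        (((⌊2 * b * X * δ⌋ + 1 - ⌊-(2 * b * X * δ)⌋).toNat : ℤ) : ℝ) := by norm_cast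
    have h2 : (((⌊2 * b * X * δ⌋ + 1 - ⌊-(2 * b * X * δ)⌋).toNat : ℤ) : ℝ) =
        max (((⌊2 * b * X * δ⌋ + 1 - ⌊-(2 * b * X * δ)⌋ : ℤ) : ℝ)) 0 := by
      rw [Int.toNat_eq_max]
      push_cast
      rfl
    rw [h3, h2]
    have h4 := Int.floor_le (2 * b * X * δ)
    have h5 := Int.lt_floor_add_one (-(2 * b * X * δ))
    have h6 : 0 ≤ X * δ := by positivity
    have h7 : 0 ≤ b * (X * δ) := by positivity
    apply max_le
    · push_cast
      nlinarith
    · positivity
  calc ((S.card : ℕ) : ℝ) ≤ ((⌊2 * b * X * δ⌋ + 1 - ⌊-(2 * b * X * δ)⌋).toNat : ℝ) := by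
        exact_mod_cast hcard
    _ ≤ (4 * b + 2) * (X * δ + 1) := h1

/-! ### BETW -/

lemma exists_dt_one {z : Qd t c} (h : prim z) : ∃ u : Qd t c, dt z u = 1 := by
  unfold prim at h
  rw [← Int.isCoprime_iff_gcd_eq_one] at h
  obtain ⟨a, b, hab⟩ := h
  exact ⟨⟨-b, a⟩, by unfold dt; simp only; linarith⟩

/-- between two primitive vectors of determinant `m ≥ 2` there is a vector `u = (b z + z') / m`,
`0 < b < m` -/
lemma exists_mid {z z' : Qd t c} (hz : prim z) (hz' : prim z') (hd : 2 ≤ dt z z') :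
    ∃ (u : Qd t c) (b : ℤ), 0 < b ∧ b < dt z z' ∧ dt z u = 1 ∧ dt u z' = b ∧
      dt z z' * u.re = b * z.re + z'.re ∧ dt z z' * u.im = b * z.im + z'.im := by
  set m := dt z z' with hmdef
  obtain ⟨u0, hu0⟩ := exists_dt_one hz
  -- z' = a z + m u0
  set a := (z'.re - m * u0.re) * u0.im - (z'.im - m * u0.im) * u0.re with ha
  have hu0' : z.re * u0.im - z.im * u0.re = 1 := hu0
  have hm' : z.re * z'.im - z.im * z'.re = m := hmdef.symm
  have e1 : z'.re = a * z.re + m * u0.re := by
    rw [ha]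
    linear_combination (-z'.re + m * u0.re) * hu0' + u0.re * hm' - m * u0.re * hu0'
  have e2 : z'.im = a * z.im + m * u0.im := by
    rw [ha]
    linear_combination (-z'.im + m * u0.im) * hu0' + u0.im * hm' - m * u0.im * hu0'
  set b := (-a) % m with hb
  have hmpos : 0 < m := by omega
  have hb0 : 0 ≤ b := Int.emod_nonneg _ hmpos.ne'
  have hbm : b < m := Int.emod_lt_of_pos _ hmpos
  obtain ⟨τ, hτ⟩ : ∃ τ : ℤ, -a = b + m * τ := ⟨(-a) / m, (Int.emod_add_mul_ediv _ _).symm⟩
  have hb' : b = -a - m * τ := by linarith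
  refine ⟨⟨u0.re - τ * z.re, u0.im - τ * z.im⟩, b, ?_, hbm, ?_, ?_, ?_, ?_⟩
  · rcases hb0.lt_or_eq with h | h
    · exact h
    · exfalso
      have h1 : z'.re = m * (u0.re - τ * z.re) := by
        rw [e1]; linear_combination z.re * (hb'.symm.trans h.symm) * (-1)
      have h2 : z'.im = m * (u0.im - τ * z.im) := by
        rw [e2]; linear_combination z.im * (hb'.symm.trans h.symm) * (-1)
      unfold prim at hz'
      rw [h1, h2, Int.gcd_mul_left] at hz'
      have : m.natAbs = 1 := Nat.eq_one_of_mul_eq_one_right hz'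
      omega
  · unfold dt
    simp only
    linear_combination hu0'
  · unfold dt
    simp only
    rw [hb']
    have e3 : u0.re * z'.im - u0.im * z'.re = -a := by
      rw [e1, e2]
      linear_combination (-a) * hu0'
    linear_combination e3 - τ * hm'
  · simp only
    rw [e1, hb']
    ring
  · simp only
    rw [e2, hb']
    ring

/-- the induction -/
lemma betw_aux (U : Un t c η) (M₁ M₂ : ℝ) : ∀ (N : ℕ) (z z' : Qd t c), dt z z' = N → 0 < dt z z' →
    tp z → tp z' → prim z → prim z' → s1 z ≤ M₁ → s1 z' ≤ M₁ → s2 z ≤ M₂ → s2 z' ≤ M₂ →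
    lam (nm z) ≠ lam (nm z') →
    ∃ v u : Qd t c, tp v ∧ tp u ∧ dt v u = 1 ∧ s1 v ≤ M₁ ∧ s1 u ≤ M₁ ∧ s2 v ≤ M₂ ∧ s2 u ≤ M₂ ∧
      lam (nm v) ≠ lam (nm u) ∧ ang η z ≤ ang η v ∧ ang η v < ang η u ∧ ang η u ≤ ang η z' := by
  intro N
  induction N using Nat.strong_induction_on with
  | _ N ih =>
    intro z z' hN hd hz hz' pz pz' h1 h1' h2 h2' hl
    by_cases hd1 : dt z z' = 1
    · exact ⟨z, z', hz, hz', hd1, h1, h1', h2, h2', hl, le_rfl, (U.dt_pos_iff hz hz').1 hd, le_rfl⟩
    · obtain ⟨u, b, hb0, hbm, hu1, hu2, e1, e2⟩ := exists_mid pz pz' (by omega)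
      set m := dt z z' with hm
      have hmR : (0 : ℝ) < m := by exact_mod_cast hd
      have hbR : (0 : ℝ) < b := by exact_mod_cast hb0
      have hbmR : (b : ℝ) + 1 ≤ m := by exact_mod_cast hbm
      have e1R : (m : ℝ) * u.re = b * z.re + z'.re := by exact_mod_cast e1
      have e2R : (m : ℝ) * u.im = b * z.im + z'.im := by exact_mod_cast e2
      have k1 : (m : ℝ) * s1 u = b * s1 z + s1 z' := by
        unfold s1
        linear_combination e1R + (t / 2 + Real.sqrt ((t : ℝ) ^ 2 - 4 * c) / 2) * e2R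
      have k2 : (m : ℝ) * s2 u = b * s2 z + s2 z' := by
        unfold s2
        linear_combination e1R + (t / 2 - Real.sqrt ((t : ℝ) ^ 2 - 4 * c) / 2) * e2R
      have hu : tp u := by
        constructor
        · have : 0 < (m : ℝ) * s1 u := by
            rw [k1]
            exact add_pos (mul_pos hbR hz.1) hz'.1
          exact (mul_pos_iff_of_pos_left hmR).1 this
        · have : 0 < (m : ℝ) * s2 u := by
            rw [k2]
            exact add_pos (mul_pos hbR hz.2) hz'.2
          exact (mul_pos_iff_of_pos_left hmR).1 this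
      have b1 : s1 u ≤ M₁ := by
        have hM : 0 < M₁ := lt_of_lt_of_le hz.1 h1
        have : (m : ℝ) * s1 u ≤ m * M₁ := by
          rw [k1]
          calc b * s1 z + s1 z' ≤ b * M₁ + M₁ := add_le_add (mul_le_mul_of_nonneg_left h1 hbR.le) h1'
            _ = (b + 1) * M₁ := by ring
            _ ≤ m * M₁ := mul_le_mul_of_nonneg_right hbmR hM.le
        exact le_of_mul_le_mul_left this hmR
      have b2 : s2 u ≤ M₂ := by
        have hM : 0 < M₂ := lt_of_lt_of_le hz.2 h2
        have : (m : ℝ) * s2 u ≤ m * M₂ := by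
          rw [k2]
          calc b * s2 z + s2 z' ≤ b * M₂ + M₂ := add_le_add (mul_le_mul_of_nonneg_left h2 hbR.le) h2'
            _ = (b + 1) * M₂ := by ring
            _ ≤ m * M₂ := mul_le_mul_of_nonneg_right hbmR hM.le
        exact le_of_mul_le_mul_left this hmR
      have hzu : ang η z < ang η u := (U.dt_pos_iff hz hu).1 (by omega)
      have huz : ang η u < ang η z' := (U.dt_pos_iff hu hz').1 (by omega)
      by_cases hlu : lam (nm z) = lam (nm u)
      · obtain ⟨v, w, g1, g2, g3, g4, g5, g6, g7, g8, g9, g10, g11⟩ :=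
          ih b.toNat (by omega) u z' (by omega) (by omega) hu hz' (prim_of_dt hu1).2 pz' b1 h1' b2
            h2' (by rw [← hlu]; exact hl)
        exact ⟨v, w, g1, g2, g3, g4, g5, g6, g7, g8, hzu.le.trans g9, g10, g11⟩
      · exact ⟨z, u, hz, hu, hu1, h1, b1, h2, b2, hlu, le_rfl, hzu, huz.le⟩

/-- products of the maxima of the two embeddings -/
lemma prod_le (U : Un t c η) {X : ℝ} {z z' : Qd t c} (hz : tp z) (hz' : tp z')
    (hX : (nm z : ℝ) ≤ X) (hX' : (nm z' : ℝ) ≤ X) (h : |ang η z' - ang η z| ≤ 2 * Real.pi) :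
    s1 z' * s2 z ≤ s1 (η : Qd t c) * X := by
  have he := U.s1_gt
  have hpi := Real.pi_pos
  have hR := U.rg_pos
  obtain ⟨a1, a2⟩ := U.s1_polar hz
  obtain ⟨b1, b2⟩ := U.s1_polar hz'
  have h2 : Real.exp (rg η / (2 * Real.pi) * (ang η z' - ang η z)) ≤ s1 (η : Qd t c) := by
    have : s1 (η : Qd t c) = Real.exp (rg η) := by
      unfold rg
      rw [Real.exp_log (by linarith)]
    rw [this, Real.exp_le_exp]
    rw [div_mul_eq_mul_div, div_le_iff₀ (by positivity)]
    exact mul_le_mul_of_nonneg_left ((le_abs_self _).trans h) hR.le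
  have h3 : s1 z' * s2 z = Real.sqrt (nm z) * Real.sqrt (nm z') *
      Real.exp (rg η / (2 * Real.pi) * (ang η z' - ang η z)) := by
    have e1 : Real.exp (rg η / (2 * Real.pi) * (ang η z' - ang η z)) =
        Real.exp (rg η / (2 * Real.pi) * ang η z') *
          Real.exp (-(rg η / (2 * Real.pi) * ang η z)) := by
      rw [← Real.exp_add]
      congr 1
      ring
    rw [e1, b1, a2]
    ring
  have hX0 : 0 ≤ X := (Nat.cast_nonneg _).trans hX
  have h4 : Real.sqrt (nm z) * Real.sqrt (nm z') ≤ X := by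
    calc Real.sqrt (nm z) * Real.sqrt (nm z') ≤ Real.sqrt X * Real.sqrt X :=
          mul_le_mul (Real.sqrt_le_sqrt hX) (Real.sqrt_le_sqrt hX') (Real.sqrt_nonneg _)
            (Real.sqrt_nonneg _)
      _ = X := Real.mul_self_sqrt hX0
  rw [h3, mul_comm (s1 (η : Qd t c)) X]
  exact mul_le_mul h4 h2 (Real.exp_pos _).le hX0

theorem betw (U : Un t c η) : S_BETW t c η := by
  have he := U.s1_gt
  refine ⟨s1 (η : Qd t c), he.le, ?_⟩
  intro X z z' hz hz' pz pz' hX hX' hd ha hl
  have hX0 : 0 ≤ X := (Nat.cast_nonneg _).trans hX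
  obtain ⟨v, u, g1, g2, g3, g4, g5, g6, g7, g8, g9, g10, g11⟩ :=
    betw_aux U (max (s1 z) (s1 z')) (max (s2 z) (s2 z')) (dt z z').toNat z z'
      (by omega) hd hz hz' pz pz' (le_max_left _ _) (le_max_right _ _) (le_max_left _ _)
      (le_max_right _ _) hl
  have hlt := (U.dt_pos_iff hz hz').1 hd
  have habs : |ang η z' - ang η z| ≤ 2 * Real.pi := by
    rw [abs_of_pos (by linarith)]
    exact ha
  have habs' : |ang η z - ang η z'| ≤ 2 * Real.pi := by
    rw [abs_sub_comm]
    exact habs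
  have hprod : max (s1 z) (s1 z') * max (s2 z) (s2 z') ≤ s1 (η : Qd t c) * X := by
    have q1 : s1 z * s2 z ≤ s1 (η : Qd t c) * X := by
      rw [← nm_tp U.disc hz]
      exact hX.trans (le_mul_of_one_le_left hX0 he.le)
    have q2 : s1 z' * s2 z' ≤ s1 (η : Qd t c) * X := by
      rw [← nm_tp U.disc hz']
      exact hX'.trans (le_mul_of_one_le_left hX0 he.le)
    have q3 := prod_le U hz hz' hX hX' habs
    have q4 := prod_le U hz' hz hX' hX habs'
    rcases le_total (s1 z) (s1 z') with k1 | k1 <;> rcases le_total (s2 z) (s2 z') with k2 | k2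
    · rw [max_eq_right k1, max_eq_right k2]; exact q2
    · rw [max_eq_right k1, max_eq_left k2]; exact q3
    · rw [max_eq_left k1, max_eq_right k2]; exact q4
    · rw [max_eq_left k1, max_eq_left k2]; exact q1
  refine ⟨v, u, g1, g2, g3, ?_, ?_, g8, g9, g10, g11⟩
  · rw [nm_tp U.disc g1]
    exact (mul_le_mul g4 g6 g1.2.le (hz.1.le.trans (le_max_left _ _))).trans hprod
  · rw [nm_tp U.disc g2]
    exact (mul_le_mul g5 g7 g2.2.le (hz.1.le.trans (le_max_left _ _))).trans hprod

end Pool.Agent.W54.GR
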